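import Pool.Agent.Run7.h617.Gag.One

/-!
# Uniform comparison of Gagliardo seminorms: the dyadic annuli
-/

open MeasureTheory Set
open scoped ENNReal

namespace Pool.Agent.Run7.h617.Gag

noncomputable section

variable {N : ℕ}

/-- The dyadic annulus. -/
def A (N k : ℕ) : Set (E N) := {h | (1 / 2 : ℝ) ^ (k + 1) < ‖h‖ ∧ ‖h‖ ≤ (1 / 2 : ℝ) ^ k}

lemma A_meas (k : ℕ) : MeasurableSet (A N k) := by
  apply MeasurableSet.inter
  · exact measurableSet_lt measurable_const measurable_norm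
  · exact measurableSet_le measurable_norm measurable_const

lemma A_pos {k : ℕ} {h : E N} (hh : h ∈ A N k) : 0 < ‖h‖ :=
  lt_trans (by positivity) hh.1

lemma A_disj : Pairwise (Function.onFun Disjoint (A N)) := by
  have key : ∀ i j : ℕ, i < j → Disjoint (A N i) (A N j) := by
    intro i j hij
    rw [Set.disjoint_left]
    rintro h ⟨h1, -⟩ ⟨-, h4⟩
    have : (1 / 2 : ℝ) ^ j ≤ (1 / 2 : ℝ) ^ (i + 1) :=
      pow_le_pow_of_le_one (by norm_num) (by norm_num) hij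
    linarith
  intro i j hij
  rcases lt_or_gt_of_ne hij with h | h
  · exact key i j h
  · exact (key j i h).symm

/-- The dyadic pieces. -/
def G (p : ℝ) (f : E N → ℂ) (k : ℕ) : ℝ≥0∞ := ∫⁻ h in A N k, D p f h / ‖h‖ₑ ^ ((N : ℝ) + p)

lemma scal (g : E N → ℝ≥0∞) (hg : Measurable g) :
    ∫⁻ u, g ((2:ℝ) • u) = ENNReal.ofReal ((2 ^ N)⁻¹) * ∫⁻ h, g h := by
  have h := Measure.map_addHaar_smul (volume : Measure (E N)) (r := 2) (by norm_num)
  have h2 := lintegral_map (μ := (volume : Measure (E N))) hg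
    (measurable_const_smul (2:ℝ) : Measurable fun u : E N => (2:ℝ) • u)
  rw [← h2, h, lintegral_smul_measure, finrank_euclideanSpace, Fintype.card_fin,
    abs_of_pos (by positivity), smul_eq_mul]

lemma G_mono {p : ℝ} (hp : 1 ≤ p) {f : E N → ℂ} (hf : Measurable f) : Monotone (G p f) := by
  apply monotone_nat_of_le_succ
  intro k
  have hD := D_meas (p := p) hf
  set Φ : E N → ℝ≥0∞ := fun h => D p f h / ‖h‖ₑ ^ ((N : ℝ) + p) with hΦ
  have hΦm : Measurable Φ := by simp only [hΦ]; fun_prop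
  have e1 : G p f k = ∫⁻ h, (A N k).indicator Φ h := (lintegral_indicator (A_meas k) Φ).symm
  have e2 : G p f (k + 1) = ∫⁻ h, (A N (k + 1)).indicator Φ h :=
    (lintegral_indicator (A_meas (k + 1)) Φ).symm
  have h3 := scal ((A N k).indicator Φ) (hΦm.indicator (A_meas k))
  have h4 : ∀ u, (A N k).indicator Φ ((2:ℝ) • u) ≤
      ENNReal.ofReal ((2 ^ N)⁻¹) * (A N (k + 1)).indicator Φ u := by
    intro u
    by_cases hu : (2:ℝ) • u ∈ A N k
    · have hu' : u ∈ A N (k + 1) := by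
        have h1 := hu.1
        have h2 := hu.2
        rw [norm_smul, Real.norm_of_nonneg (by norm_num : (0:ℝ) ≤ 2)] at h1 h2
        refine ⟨?_, ?_⟩
        · rw [pow_succ]; linarith
        · rw [pow_succ]; linarith
      rw [indicator_of_mem hu, indicator_of_mem hu']
      simp only [hΦ]
      have hn : ‖(2:ℝ) • u‖ₑ = 2 * ‖u‖ₑ := by
        rw [enorm_smul]
        congr 1
        rw [Real.enorm_eq_ofReal (by norm_num)]
        norm_num
      have hu0 : ‖u‖ₑ ≠ 0 := by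
        have := A_pos hu'
        rw [Ne, enorm_eq_zero]
        exact norm_pos_iff.1 this
      have hut : ‖u‖ₑ ≠ ⊤ := enorm_ne_top
      rw [hn, ENNReal.mul_rpow_of_nonneg _ _ (by positivity)]
      have hc : ENNReal.ofReal ((2 ^ N : ℝ)⁻¹) = ((2:ℝ≥0∞) ^ (N:ℝ))⁻¹ := by
        rw [ENNReal.rpow_natCast, ENNReal.ofReal_inv_of_pos (by positivity),
          ENNReal.ofReal_pow (by norm_num)]
        norm_num
      calc D p f ((2:ℝ) • u) / ((2:ℝ≥0∞) ^ ((N:ℝ) + p) * ‖u‖ₑ ^ ((N:ℝ) + p))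
          ≤ ((2:ℝ≥0∞) ^ p * D p f u) / ((2:ℝ≥0∞) ^ ((N:ℝ) + p) * ‖u‖ₑ ^ ((N:ℝ) + p)) :=
            ENNReal.div_le_div_right (D_two hp hf u) _
        _ = ENNReal.ofReal ((2 ^ N)⁻¹) * (D p f u / ‖u‖ₑ ^ ((N:ℝ) + p)) := by
            rw [hc, ENNReal.rpow_add _ _ (by norm_num) (by norm_num)]
            have t1 : (2:ℝ≥0∞) ^ p ≠ 0 := by
              rw [Ne, ENNReal.rpow_eq_zero_iff]; norm_num
            have t2 : (2:ℝ≥0∞) ^ p ≠ ⊤ := ENNReal.rpow_ne_top_of_nonneg (by linarith) (by norm_num)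
            have t3 : (2:ℝ≥0∞) ^ (N:ℝ) ≠ 0 := by
              rw [Ne, ENNReal.rpow_eq_zero_iff]; norm_num
            have t4 : (2:ℝ≥0∞) ^ (N:ℝ) ≠ ⊤ := ENNReal.rpow_ne_top_of_nonneg (by positivity) (by norm_num)
            rw [mul_assoc, mul_comm ((2:ℝ≥0∞) ^ (N:ℝ)), mul_assoc,
              ENNReal.mul_div_mul_left _ _ t1 t2, div_eq_mul_inv, div_eq_mul_inv,
              ENNReal.mul_inv (Or.inr t4) (Or.inr t3)]
            ring
    · rw [indicator_of_notMem hu]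
      exact zero_le
  have h5 : ENNReal.ofReal ((2 ^ N)⁻¹) * G p f k ≤ ENNReal.ofReal ((2 ^ N)⁻¹) * G p f (k + 1) := by
    rw [e1, e2, ← h3, ← lintegral_const_mul _ (hΦm.indicator (A_meas (k + 1)))]
    exact lintegral_mono h4
  rwa [ENNReal.mul_le_mul_iff_right] at h5
  · rw [Ne, ENNReal.ofReal_eq_zero, not_le]; positivity
  · exact ENNReal.ofReal_ne_top

/-- The ratio of the geometric weights. -/
def qq (p c : ℝ) : ℝ≥0∞ := ENNReal.ofReal ((1 / 2 : ℝ) ^ (p * c))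

lemma piece_upper {p c : ℝ} (hp : 1 ≤ p) (hc : 0 < c) {f : E N → ℂ} (hf : Measurable f) (k : ℕ) :
    ∫⁻ h in A N k, D p f h / ‖h‖ₑ ^ ((N : ℝ) + p - p * c) ≤ qq p c ^ k * G p f k := by
  have hD := D_meas (p := p) hf
  unfold G
  rw [← lintegral_const_mul _ (by fun_prop)]
  refine setLIntegral_mono (by fun_prop) fun h hh => ?_
  have h0 := A_pos hh
  have hu0 : ‖h‖ₑ ≠ 0 := by
    rw [Ne, enorm_eq_zero]
    exact norm_pos_iff.1 h0
  have hut : ‖h‖ₑ ≠ ⊤ := enorm_ne_top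
  have hpc : 0 < p * c := by positivity
  have h1 : ‖h‖ₑ ^ (p * c) ≤ qq p c ^ k := by
    unfold qq
    rw [← ENNReal.ofReal_pow (by positivity), ← ofReal_norm,
      ENNReal.ofReal_rpow_of_pos h0]
    apply ENNReal.ofReal_le_ofReal
    rw [← Real.rpow_natCast, ← Real.rpow_mul (by norm_num), mul_comm (p * c) (k : ℝ),
      Real.rpow_mul (by norm_num) (k : ℝ), Real.rpow_natCast]
    exact Real.rpow_le_rpow h0.le hh.2 hpc.le
  rw [ENNReal.rpow_sub _ _ hu0 hut, div_eq_mul_inv, div_eq_mul_inv, div_eq_mul_inv,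
    ENNReal.mul_inv (Or.inr (by simp [ENNReal.rpow_eq_zero_iff, hu0, hut]))
      (Or.inr (by simp [ENNReal.rpow_eq_top_iff, hu0, hut])), inv_inv, ← mul_assoc, mul_comm]
  exact mul_le_mul' h1 le_rfl

lemma piece_lower {p c : ℝ} (hp : 1 ≤ p) (hc : 0 < c) {f : E N → ℂ} (hf : Measurable f) (k : ℕ) :
    qq p c * (qq p c ^ k * G p f k) ≤ ∫⁻ h in A N k, D p f h / ‖h‖ₑ ^ ((N : ℝ) + p - p * c) := by
  have hD := D_meas (p := p) hf
  unfold G
  rw [← mul_assoc, ← lintegral_const_mul _ (by fun_prop)]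
  refine setLIntegral_mono (by fun_prop) fun h hh => ?_
  have h0 := A_pos hh
  have hu0 : ‖h‖ₑ ≠ 0 := by
    rw [Ne, enorm_eq_zero]
    exact norm_pos_iff.1 h0
  have hut : ‖h‖ₑ ≠ ⊤ := enorm_ne_top
  have hpc : 0 < p * c := by positivity
  have h1 : qq p c * qq p c ^ k ≤ ‖h‖ₑ ^ (p * c) := by
    unfold qq
    rw [← pow_succ', ← ENNReal.ofReal_pow (by positivity), ← ofReal_norm,
      ENNReal.ofReal_rpow_of_pos h0]
    apply ENNReal.ofReal_le_ofReal
    rw [← Real.rpow_natCast, ← Real.rpow_mul (by norm_num), mul_comm (p * c) (((k + 1 : ℕ)) : ℝ),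
      Real.rpow_mul (by norm_num) (((k + 1 : ℕ)) : ℝ), Real.rpow_natCast]
    exact Real.rpow_le_rpow (by positivity) hh.1.le hpc.le
  rw [ENNReal.rpow_sub _ _ hu0 hut, div_eq_mul_inv, div_eq_mul_inv, div_eq_mul_inv,
    ENNReal.mul_inv (Or.inr (by simp [ENNReal.rpow_eq_zero_iff, hu0, hut]))
      (Or.inr (by simp [ENNReal.rpow_eq_top_iff, hu0, hut])), inv_inv, ← mul_assoc (D p f h),
    mul_comm _ (‖h‖ₑ ^ (p * c))]
  exact mul_le_mul' h1 le_rfl

lemma near_upper {p c : ℝ} (hp : 1 ≤ p) (hc : 0 < c) {f : E N → ℂ} (hf : Measurable f) :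
    ∫⁻ h in {h : E N | ‖h‖ ≤ 1}, D p f h / ‖h‖ₑ ^ ((N : ℝ) + p - p * c) ≤
      ∑' k, qq p c ^ k * G p f k := by
  have hm : MeasurableSet {h : E N | ‖h‖ ≤ 1} := measurableSet_le measurable_norm measurable_const
  set g : E N → ℝ≥0∞ := fun h => D p f h / ‖h‖ₑ ^ ((N : ℝ) + p - p * c) with hg
  have h0 : g 0 = 0 := by
    simp only [hg, D, add_zero, sub_self, enorm_zero]
    rw [ENNReal.zero_rpow_of_pos (by linarith)]
    simp
  calc ∫⁻ h in {h : E N | ‖h‖ ≤ 1}, g h ≤ ∫⁻ h in ⋃ k, A N k, g h := by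
        rw [← lintegral_indicator hm, ← lintegral_indicator (MeasurableSet.iUnion A_meas)]
        refine lintegral_mono fun h => ?_
        by_cases hh : ‖h‖ ≤ 1
        · rw [indicator_of_mem (show h ∈ {h : E N | ‖h‖ ≤ 1} from hh)]
          rcases eq_or_ne h 0 with rfl | hne
          · rw [h0]; exact zero_le
          · obtain ⟨n, hn1, hn2⟩ := exists_nat_pow_near_of_lt_one (norm_pos_iff.2 hne) hh
              (by norm_num : (0:ℝ) < 1 / 2) (by norm_num)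
            rw [indicator_of_mem (mem_iUnion.2 ⟨n, (⟨hn1, hn2⟩ : h ∈ A N n)⟩)]
        · rw [indicator_of_notMem (show h ∉ {h : E N | ‖h‖ ≤ 1} from hh)]
          exact zero_le
    _ ≤ ∑' k, ∫⁻ h in A N k, g h := lintegral_iUnion_le _ _
    _ ≤ _ := ENNReal.tsum_le_tsum fun k => piece_upper hp hc hf k

lemma near_lower {p c : ℝ} (hp : 1 ≤ p) (hc : 0 < c) {f : E N → ℂ} (hf : Measurable f) :
    qq p c * ∑' k, qq p c ^ k * G p f k ≤
      ∫⁻ h, D p f h / ‖h‖ₑ ^ ((N : ℝ) + p - p * c) := by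
  calc qq p c * ∑' k, qq p c ^ k * G p f k = ∑' k, qq p c * (qq p c ^ k * G p f k) :=
        ENNReal.tsum_mul_left.symm
    _ ≤ ∑' k, ∫⁻ h in A N k, D p f h / ‖h‖ₑ ^ ((N : ℝ) + p - p * c) :=
        ENNReal.tsum_le_tsum fun k => piece_lower hp hc hf k
    _ = ∫⁻ h in ⋃ k, A N k, D p f h / ‖h‖ₑ ^ ((N : ℝ) + p - p * c) :=
        (lintegral_iUnion A_meas A_disj _).symm
    _ ≤ _ := setLIntegral_le_lintegral _ _

/-- The far part. -/
lemma far {p θ : ℝ} (hp : 1 ≤ p) (hθ : 0 < θ) :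
    ∃ K : ℝ≥0∞, K ≠ ⊤ ∧ ∀ s, θ < s → ∀ f : E N → ℂ, Measurable f →
      ∫⁻ h in {h : E N | ‖h‖ ≤ 1}ᶜ, D p f h / ‖h‖ₑ ^ ((N : ℝ) + s * p) ≤
        K * ∫⁻ x, ‖f x‖ₑ ^ p := by
  have hR : (0:ℝ) < (N:ℝ) + θ * p := by positivity
  have hfin := finite_integral_one_add_norm (μ := (volume : Measure (E N)))
    (r := (N:ℝ) + θ * p) (by rw [finrank_euclideanSpace, Fintype.card_fin]
                             nlinarith [mul_pos hθ (by linarith : (0:ℝ) < p)])
  refine ⟨(2:ℝ≥0∞) ^ p * (ENNReal.ofReal (2 ^ ((N:ℝ) + θ * p)) *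
    ∫⁻ x : E N, ENNReal.ofReal ((1 + ‖x‖) ^ (-((N:ℝ) + θ * p)))), ?_, ?_⟩
  · exact ENNReal.mul_ne_top (ENNReal.rpow_ne_top_of_nonneg (by linarith) (by norm_num))
      (ENNReal.mul_ne_top ENNReal.ofReal_ne_top hfin.ne)
  · intro s hs f hf
    have hm : MeasurableSet {h : E N | ‖h‖ ≤ 1}ᶜ :=
      (measurableSet_le measurable_norm measurable_const).compl
    have hw : Measurable fun x : E N => ENNReal.ofReal ((1 + ‖x‖) ^ (-((N:ℝ) + θ * p))) := by
      fun_prop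
    rw [mul_assoc, mul_comm (ENNReal.ofReal (2 ^ ((N:ℝ) + θ * p)) * _), ← mul_assoc,
      ← lintegral_const_mul _ hw, ← lintegral_const_mul _ (hw.const_mul _)]
    refine (setLIntegral_mono (by fun_prop) fun h hh => ?_).trans (setLIntegral_le_lintegral _ _)
    have h1 : 1 < ‖h‖ := not_le.1 hh
    have hpos : 0 < ‖h‖ := by linarith
    rw [div_eq_mul_inv]
    refine mul_le_mul' (D_norm hp hf h) ?_
    rw [← ofReal_norm, ENNReal.ofReal_rpow_of_pos hpos,
      ← ENNReal.ofReal_inv_of_pos (by positivity), ← ENNReal.ofReal_mul (by positivity)]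
    apply ENNReal.ofReal_le_ofReal
    calc (‖h‖ ^ ((N:ℝ) + s * p))⁻¹ ≤ (‖h‖ ^ ((N:ℝ) + θ * p))⁻¹ := by
          apply inv_anti₀ (by positivity)
          apply Real.rpow_le_rpow_of_exponent_le h1.le
          nlinarith
      _ = 2 ^ ((N:ℝ) + θ * p) * (2 * ‖h‖) ^ (-((N:ℝ) + θ * p)) := by
          rw [Real.rpow_neg (by positivity), Real.mul_rpow (by norm_num) hpos.le, mul_inv,
            ← mul_assoc, mul_inv_cancel₀ (by positivity), one_mul]
      _ ≤ 2 ^ ((N:ℝ) + θ * p) * (1 + ‖h‖) ^ (-((N:ℝ) + θ * p)) := by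
          apply mul_le_mul_of_nonneg_left _ (by positivity)
          apply Real.rpow_le_rpow_of_nonpos (by positivity) (by linarith)
          linarith

/-- The exponents. -/
lemma one_sub_lower {p a : ℝ} (hp : 1 ≤ p) (ha : 0 < a) (ha1 : a ≤ 1) :
    ENNReal.ofReal (a / 2) ≤ 1 - qq p a := by
  unfold qq
  rw [show (1:ℝ≥0∞) = ENNReal.ofReal 1 by simp, ← ENNReal.ofReal_sub _ (by positivity)]
  apply ENNReal.ofReal_le_ofReal
  have h1 : (1 / 2 : ℝ) ^ (p * a) ≤ (1 / 2 : ℝ) ^ a :=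
    Real.rpow_le_rpow_of_exponent_ge (by norm_num) (by norm_num) (by nlinarith)
  have h2 : (1 / 2 : ℝ) ^ a ≤ 1 - a / 2 := by
    have h := Real.geom_mean_le_arith_mean2_weighted ha.le (by linarith : 0 ≤ 1 - a)
      (by norm_num : (0:ℝ) ≤ 1 / 2) (by norm_num : (0:ℝ) ≤ 1) (by ring)
    rw [Real.one_rpow, mul_one] at h
    linarith
  linarith

lemma one_sub_upper {p b : ℝ} (hp : 1 ≤ p) (hb : 0 < b) :
    1 - qq p b ≤ ENNReal.ofReal (p * b) := by
  unfold qq
  rw [show (1:ℝ≥0∞) = ENNReal.ofReal 1 by simp, ← ENNReal.ofReal_sub _ (by positivity)]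
  apply ENNReal.ofReal_le_ofReal
  have h1 : (1 / 2 : ℝ) ^ (p * b) = Real.exp (-(p * b) * Real.log 2) := by
    rw [Real.rpow_def_of_pos (by norm_num), one_div, Real.log_inv]
    congr 1; ring
  have h2 := Real.add_one_le_exp (-(p * b) * Real.log 2)
  have h3 : Real.log 2 ≤ 1 := by
    have := Real.log_two_lt_d9
    linarith
  have h4 : 0 < p * b := by positivity
  rw [h1]
  nlinarith

/-- The comparison of the near parts. -/
lemma near {p a b : ℝ} (hp : 1 ≤ p) (hb : 0 < b) (hab : b ≤ a) (ha1 : a ≤ 1)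
    {f : E N → ℂ} (hf : Measurable f) :
    ENNReal.ofReal a * ∫⁻ h in {h : E N | ‖h‖ ≤ 1}, D p f h / ‖h‖ₑ ^ ((N : ℝ) + p - p * a) ≤
      ENNReal.ofReal (2 * p * 2 ^ p) * (ENNReal.ofReal b *
        ∫⁻ h, D p f h / ‖h‖ₑ ^ ((N : ℝ) + p - p * b)) := by
  have ha : 0 < a := hb.trans_le hab
  have hq1 : qq p b < 1 := by
    unfold qq
    rw [← ENNReal.ofReal_one]
    exact (ENNReal.ofReal_lt_ofReal_iff (by norm_num)).2
      (Real.rpow_lt_one (by norm_num) (by norm_num) (by positivity))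
  have hqq : qq p a ≤ qq p b := by
    unfold qq
    apply ENNReal.ofReal_le_ofReal
    exact Real.rpow_le_rpow_of_exponent_ge (by norm_num) (by norm_num)
      (mul_le_mul_of_nonneg_left hab (by linarith))
  have hq0 : ENNReal.ofReal (2 ^ p) * qq p b ≥ 1 := by
    unfold qq
    rw [← ENNReal.ofReal_mul (by positivity), ge_iff_le, ← ENNReal.ofReal_one]
    apply ENNReal.ofReal_le_ofReal
    rw [one_div, Real.inv_rpow (by norm_num), ← Real.rpow_neg (by norm_num),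
      ← Real.rpow_add (by norm_num)]
    exact Real.one_le_rpow (by norm_num) (by nlinarith)
  calc ENNReal.ofReal a * ∫⁻ h in {h : E N | ‖h‖ ≤ 1}, D p f h / ‖h‖ₑ ^ ((N : ℝ) + p - p * a)
      ≤ ENNReal.ofReal a * ∑' k, qq p a ^ k * G p f k :=
        mul_le_mul' le_rfl (near_upper hp ha hf)
    _ = 2 * (ENNReal.ofReal (a / 2) * ∑' k, qq p a ^ k * G p f k) := by
        rw [← mul_assoc]
        congr 1
        rw [show (2:ℝ≥0∞) = ENNReal.ofReal 2 by simp, ← ENNReal.ofReal_mul (by norm_num)]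
        congr 1; ring
    _ ≤ 2 * ((1 - qq p a) * ∑' k, qq p a ^ k * G p f k) :=
        mul_le_mul' le_rfl (mul_le_mul' (one_sub_lower hp ha ha1) le_rfl)
    _ ≤ 2 * ((1 - qq p b) * ∑' k, qq p b ^ k * G p f k) :=
        mul_le_mul' le_rfl (series_le (G_mono hp hf) hqq hq1)
    _ ≤ 2 * (ENNReal.ofReal (p * b) * ∑' k, qq p b ^ k * G p f k) :=
        mul_le_mul' le_rfl (mul_le_mul' (one_sub_upper hp hb) le_rfl)
    _ ≤ 2 * (ENNReal.ofReal (p * b) * (ENNReal.ofReal (2 ^ p) * qq p b *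
          ∑' k, qq p b ^ k * G p f k)) := by
        refine mul_le_mul' le_rfl (mul_le_mul' le_rfl ?_)
        exact le_mul_of_one_le_left zero_le hq0
    _ ≤ 2 * (ENNReal.ofReal (p * b) * (ENNReal.ofReal (2 ^ p) *
          ∫⁻ h, D p f h / ‖h‖ₑ ^ ((N : ℝ) + p - p * b))) := by
        rw [mul_assoc (ENNReal.ofReal (2 ^ p))]
        exact mul_le_mul' le_rfl (mul_le_mul' le_rfl (mul_le_mul' le_rfl (near_lower hp hb hf)))
    _ = _ := by
        rw [ENNReal.ofReal_mul (by linarith : (0:ℝ) ≤ p), ENNReal.ofReal_mul (by positivity),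
          ENNReal.ofReal_mul (by norm_num : (0:ℝ) ≤ 2)]
        rw [show ENNReal.ofReal 2 = (2:ℝ≥0∞) by simp]
        ring

end

end Pool.Agent.Run7.h617.Gag
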