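import Mathlib

/-!
# Uniform comparison of Gagliardo seminorms
-/

open MeasureTheory Set
open scoped ENNReal

namespace Pool.Agent.Run7.h617.Gag

noncomputable section

/-- Series with geometric weights and a nondecreasing sequence: summation by parts. -/
lemma series {G : ℕ → ℝ≥0∞} (hG : Monotone G) (q : ℝ≥0∞) (hq : q < 1) :
    (1 - q) * ∑' k, q ^ k * G k =
      ∑' j, q ^ j * (G j - if j = 0 then 0 else G (j - 1)) := by
  set g : ℕ → ℝ≥0∞ := fun j => G j - if j = 0 then 0 else G (j - 1) with hg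
  have hGs : ∀ k, G k = ∑ j ∈ Finset.range (k + 1), g j := by
    intro k
    induction k with
    | zero => simp [hg]
    | succ k ih =>
      rw [Finset.sum_range_succ, ← ih]
      simp only [hg, Nat.add_eq_zero_iff, one_ne_zero, and_false, if_false, Nat.add_sub_cancel]
      rw [add_tsub_cancel_of_le (hG (Nat.le_succ k))]
  have h1 : ∀ k, q ^ k * G k = ∑' j, if j ≤ k then q ^ k * g j else 0 := by
    intro k
    rw [hGs k, Finset.mul_sum, tsum_eq_sum (s := Finset.range (k + 1))]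
    · refine Finset.sum_congr rfl fun j hj => ?_
      rw [if_pos (Nat.lt_succ_iff.1 (Finset.mem_range.1 hj))]
    · intro j hj
      rw [if_neg]
      intro h
      exact hj (Finset.mem_range.2 (Nat.lt_succ_of_le h))
  have h2 : ∀ j, ∑' k, (if j ≤ k then q ^ k * g j else 0) = (1 - q)⁻¹ * (q ^ j * g j) := by
    intro j
    have : ∑' k, (if j ≤ k then q ^ k * g j else 0) = ∑' m, q ^ (m + j) * g j := by
      rw [← Function.Injective.tsum_eq (g := fun m => m + j) (add_left_injective j)]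
      · refine tsum_congr fun m => ?_
        rw [if_pos (Nat.le_add_left j m)]
      · intro k hk
        have hk' : j ≤ k := by
          by_contra h
          exact hk (if_neg h)
        exact ⟨k - j, Nat.sub_add_cancel hk'⟩
    rw [this]
    simp_rw [pow_add, mul_assoc]
    rw [ENNReal.tsum_mul_right, ENNReal.tsum_geometric]
  simp_rw [h1]
  rw [ENNReal.tsum_comm]
  simp_rw [h2]
  rw [ENNReal.tsum_mul_left, ← mul_assoc, ENNReal.mul_inv_cancel, one_mul]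
  · exact (tsub_pos_of_lt hq).ne'
  · exact ne_top_of_le_ne_top ENNReal.one_ne_top tsub_le_self

/-- Comparison of the two geometric means of a nondecreasing sequence. -/
lemma series_le {G : ℕ → ℝ≥0∞} (hG : Monotone G) {q r : ℝ≥0∞} (hqr : q ≤ r) (hr : r < 1) :
    (1 - q) * ∑' k, q ^ k * G k ≤ (1 - r) * ∑' k, r ^ k * G k := by
  rw [series hG q (hqr.trans_lt hr), series hG r hr]
  exact ENNReal.tsum_le_tsum fun j => mul_le_mul' (pow_le_pow_left' hqr j) le_rfl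

variable {N : ℕ}

/-- The space. -/
abbrev E (N : ℕ) := EuclideanSpace ℝ (Fin N)

/-- `∫ |f(x+h) - f(x)|^p dx`. -/
def D (p : ℝ) (f : E N → ℂ) (h : E N) : ℝ≥0∞ := ∫⁻ x, ‖f (x + h) - f x‖ₑ ^ p

lemma D_meas {p : ℝ} {f : E N → ℂ} (hf : Measurable f) : Measurable (D p f) := by
  unfold D
  apply Measurable.lintegral_prod_right
  fun_prop

lemma D_two {p : ℝ} (hp : 1 ≤ p) {f : E N → ℂ} (hf : Measurable f) (h : E N) :
    D p f ((2:ℝ) • h) ≤ (2:ℝ≥0∞) ^ p * D p f h := by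
  have h1 : ∀ x, ‖f (x + (2:ℝ) • h) - f x‖ₑ ^ p ≤
      (2:ℝ≥0∞) ^ (p - 1) * (‖f (x + h + h) - f (x + h)‖ₑ ^ p + ‖f (x + h) - f x‖ₑ ^ p) := by
    intro x
    refine le_trans ?_ (ENNReal.rpow_add_le_mul_rpow_add_rpow _ _ hp)
    refine ENNReal.rpow_le_rpow ?_ (by linarith)
    rw [two_smul, ← add_assoc]
    calc ‖f (x + h + h) - f x‖ₑ = ‖(f (x + h + h) - f (x + h)) + (f (x + h) - f x)‖ₑ := by
          congr 1; ring
      _ ≤ _ := enorm_add_le _ _
  have h2 : ∫⁻ x, ‖f (x + h + h) - f (x + h)‖ₑ ^ p = D p f h :=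
    lintegral_add_right_eq_self (fun x => ‖f (x + h) - f x‖ₑ ^ p) h
  calc D p f ((2:ℝ) • h) ≤ ∫⁻ x, (2:ℝ≥0∞) ^ (p - 1) *
        (‖f (x + h + h) - f (x + h)‖ₑ ^ p + ‖f (x + h) - f x‖ₑ ^ p) := lintegral_mono h1
    _ = (2:ℝ≥0∞) ^ (p - 1) * (D p f h + D p f h) := by
        rw [lintegral_const_mul, lintegral_add_left, h2]
        · rfl
        · fun_prop
        · fun_prop
    _ = (2:ℝ≥0∞) ^ p * D p f h := by
        rw [← two_mul, ← mul_assoc]
        congr 1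
        nth_rw 2 [← ENNReal.rpow_one (2:ℝ≥0∞)]
        rw [← ENNReal.rpow_add _ _ (by norm_num) (by norm_num)]
        congr 1; ring

lemma D_norm {p : ℝ} (hp : 1 ≤ p) {f : E N → ℂ} (hf : Measurable f) (h : E N) :
    D p f h ≤ (2:ℝ≥0∞) ^ p * ∫⁻ x, ‖f x‖ₑ ^ p := by
  have h1 : ∀ x, ‖f (x + h) - f x‖ₑ ^ p ≤
      (2:ℝ≥0∞) ^ (p - 1) * (‖f (x + h)‖ₑ ^ p + ‖f x‖ₑ ^ p) := by
    intro x
    refine le_trans ?_ (ENNReal.rpow_add_le_mul_rpow_add_rpow _ _ hp)
    exact ENNReal.rpow_le_rpow (enorm_sub_le) (by linarith)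
  have h2 : ∫⁻ x, ‖f (x + h)‖ₑ ^ p = ∫⁻ x, ‖f x‖ₑ ^ p :=
    lintegral_add_right_eq_self (fun x => ‖f x‖ₑ ^ p) h
  calc D p f h ≤ ∫⁻ x, (2:ℝ≥0∞) ^ (p - 1) * (‖f (x + h)‖ₑ ^ p + ‖f x‖ₑ ^ p) := lintegral_mono h1
    _ = (2:ℝ≥0∞) ^ (p - 1) * ((∫⁻ x, ‖f x‖ₑ ^ p) + ∫⁻ x, ‖f x‖ₑ ^ p) := by
        rw [lintegral_const_mul, lintegral_add_left, h2]
        · fun_prop
        · fun_prop
    _ = _ := by
        rw [← two_mul, ← mul_assoc]
        congr 1
        nth_rw 2 [← ENNReal.rpow_one (2:ℝ≥0∞)]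
        rw [← ENNReal.rpow_add _ _ (by norm_num) (by norm_num)]
        congr 1; ring

/-- The double integral in terms of the translates. -/
lemma gag_eq {p r : ℝ} {f : E N → ℂ} (hf : Measurable f) :
    ∫⁻ x, ∫⁻ y, ‖f x - f y‖ₑ ^ p / ‖x - y‖ₑ ^ r = ∫⁻ h, D p f h / ‖h‖ₑ ^ r := by
  have h1 : ∀ x, ∫⁻ y, ‖f x - f y‖ₑ ^ p / ‖x - y‖ₑ ^ r =
      ∫⁻ h, ‖f (x + h) - f x‖ₑ ^ p / ‖h‖ₑ ^ r := by
    intro x
    rw [← lintegral_add_left_eq_self (fun y => ‖f x - f y‖ₑ ^ p / ‖x - y‖ₑ ^ r) x]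
    refine lintegral_congr fun h => ?_
    rw [enorm_sub_rev (f x), show x - (x + h) = -h by abel, enorm_neg]
  simp_rw [h1]
  rw [lintegral_lintegral_swap]
  · refine lintegral_congr fun h => ?_
    unfold D
    simp_rw [div_eq_mul_inv]
    rw [lintegral_mul_const]
    fun_prop
  · apply Measurable.aemeasurable
    simp only [Function.uncurry_def]
    fun_prop

end

end Pool.Agent.Run7.h617.Gag
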